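import Pool.Agent.Helper28.IV2.Spec

/-!
# Swarm IV2, part D: cutoffs
-/

set_option autoImplicit false

namespace Pool.Agent.Helper76.IV2.D

open Filter Topology
open Pool.Agent.Helper28.IV2

lemma mis_le_uns (S : Set ℕ) (u v : ℕ → ℕ) (K C M : ℕ) : mis S K M ≤ uns S u v K C M := by
  classical
  unfold mis uns
  apply Finset.card_le_card
  intro n hn
  rw [Finset.mem_filter] at hn ⊢
  exact ⟨hn.1, fun s hs h1 h2 => absurd h2 (hn.2 s hs h1)⟩

lemma uns_le_mis (S : Set ℕ) (N : ℕ → ℕ) (K C M : ℕ) (h : ∃ j, M ≤ N j ∧ N j ≤ C * M) :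
    uns S (fun _ => 0) N K C M ≤ mis S K M := by
  classical
  obtain ⟨j, hj1, hj2⟩ := h
  unfold mis uns
  apply Finset.card_le_card
  intro n hn
  rw [Finset.mem_filter, Finset.mem_range] at hn
  rw [Finset.mem_filter, Finset.mem_range]
  refine ⟨hn.1, fun s hs h1 h2 => ?_⟩
  exact hn.2 s hs h1 h2 j hj2 ⟨Nat.zero_le _, by omega⟩

lemma le_uns (S : Set ℕ) (N : ℕ → ℕ) (hN : StrictMono N) (K C j : ℕ)
    (hlt : C * (2 * N j) < N (j + 1)) : N j - K ≤ uns S (fun _ => 0) N K C (2 * N j) := by
  classical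
  unfold uns
  have h0 : N j - K = (Finset.Ico (N j + K) (2 * N j)).card := by
    rw [Nat.card_Ico]
    omega
  rw [h0]
  apply Finset.card_le_card
  intro n hn
  rw [Finset.mem_Ico] at hn
  rw [Finset.mem_filter, Finset.mem_range]
  refine ⟨hn.2, fun s _ h1 h2 i hi hc => ?_⟩
  have h5 : i < j + 1 := by
    by_contra h6
    have := hN.monotone (not_lt.1 h6)
    omega
  have h7 := hN.monotone (Nat.lt_succ_iff.1 h5)
  omega

theorem main : S_D := by
  intro S N hN h0
  have hpos : ∀ j, 0 < N j := fun j => lt_of_lt_of_le h0 (hN.monotone (Nat.zero_le j))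
  constructor
  · intro h
    refine ⟨fun ε hε => ?_, ?_⟩
    · obtain ⟨K, C, hC⟩ := h ε hε
      refine ⟨K, hC.mono fun M hM => ?_⟩
      have h1 : (mis S K M : ℝ) ≤ uns S (fun _ => 0) N K C M := by
        exact_mod_cast mis_le_uns S (fun _ => 0) N K C M
      exact h1.trans hM
    · obtain ⟨K, C, hC⟩ := h (1 / 3) (by norm_num)
      obtain ⟨M1, hM1⟩ := eventually_atTop.1 hC
      set M0 := M1 + 3 * K + 1 with hM0
      set B := (Finset.range M0).sup (fun j => N (j + 1)) with hB
      refine ⟨2 * C + B, fun j => ?_⟩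
      by_cases hj : j < M0
      · have h1 : N (j + 1) ≤ B :=
          Finset.le_sup (f := fun j => N (j + 1)) (Finset.mem_range.2 hj)
        have h2 := hpos j
        nlinarith
      · by_contra hcon
        push Not at hcon
        have hlt : C * (2 * N j) < N (j + 1) := by
          have : 0 ≤ B * N j := Nat.zero_le _
          nlinarith
        have hid : j ≤ N j := hN.id_le j
        have h3 := hM1 (2 * N j) (by omega)
        have h4 := le_uns S N hN K C j hlt
        have h7 : ((N j - K : ℕ) : ℝ) ≤ uns S (fun _ => 0) N K C (2 * N j) := by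
          exact_mod_cast h4
        have h8 : ((N j - K : ℕ) : ℝ) = (N j : ℝ) - K := by
          rw [Nat.cast_sub (by omega)]
        have h9 : (3 * K + 1 : ℝ) ≤ N j := by
          have : 3 * K + 1 ≤ N j := by omega
          exact_mod_cast this
        rw [h8] at h7
        push_cast at h3
        linarith
  · rintro ⟨h1, C, hC⟩ ε hε
    obtain ⟨K, hK⟩ := h1 ε hε
    refine ⟨K, C, ?_⟩
    filter_upwards [hK, eventually_ge_atTop (N 0)] with M hM1 hM
    have hex : ∃ j, M < N (j + 1) := ⟨M, lt_of_lt_of_le (Nat.lt_succ_self M) (hN.id_le (M + 1))⟩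
    have h1 := Nat.find_spec hex
    have h2 : N (Nat.find hex) ≤ M := by
      rcases Nat.eq_zero_or_pos (Nat.find hex) with h | h
      · rw [h]; exact hM
      · have h3 := Nat.find_min hex (m := Nat.find hex - 1) (by omega)
        have h4 : Nat.find hex - 1 + 1 = Nat.find hex := by omega
        rw [h4] at h3
        omega
    have h5 := uns_le_mis S N K C M
      ⟨Nat.find hex + 1, h1.le, (hC _).trans (Nat.mul_le_mul_left C h2)⟩
    have h6 : (uns S (fun _ => 0) N K C M : ℝ) ≤ mis S K M := by exact_mod_cast h5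
    exact h6.trans hM1

end Pool.Agent.Helper76.IV2.D
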